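import Mathlib

set_option autoImplicit false
set_option linter.unusedSectionVars false

/-!
In ZFC there is a maximal ideal on `ω` which is the union of a strictly increasing chain of ideals
of length `ω₁`.

Proof. Take an independent family `A_w`, `w < ω₁`, and a maximal filter `F` modulo which it is
independent. For every `B ⊆ ω` the conditions (functions from finite subsets of `ω₁` to `2`) which
decide `B` modulo `F` are dense, hence there is a bound `α < ω₁` such that the conditions below `α`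
deciding `B` are predense. Let `p` be an ultrafilter which contains `F` and all `A_w`. The sets of
`p` with bound `α` generate a filter `F_α`, the union of these filters is `p`, and `A_α` is in
`F_β` for `β > α`, but it is not in `F_α`.
-/

namespace Pool.Agent.Results.MP_ea2126_lc.ChainOfIdeals

/-- An ideal on `ω`: closed under finite unions and subsets, without `ω`. -/
structure IsIdeal (J : Set (Set ℕ)) : Prop where
  empty : ∅ ∈ J
  union : ∀ A ∈ J, ∀ B ∈ J, A ∪ B ∈ J
  subset : ∀ A ∈ J, ∀ B : Set ℕ, B ⊆ A → B ∈ J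
  proper : Set.univ ∉ J

/-- A maximal ideal on `ω`. -/
def IsMaximalIdeal (I : Set (Set ℕ)) : Prop :=
  IsIdeal I ∧ ∀ J : Set (Set ℕ), IsIdeal J → I ⊆ J → J = I

section abstract

variable {W : Type*} [LinearOrder W] [WellFoundedLT W] (A : W → Set ℕ)

/-- The cell of a condition. -/
def cell (P N : Finset W) : Set ℕ := {n | (∀ w ∈ P, n ∈ A w) ∧ ∀ w ∈ N, n ∉ A w}

/-- Filters, as families of sets (possibly improper). -/
structure Fil (F : Set (Set ℕ)) : Prop where
  univ : Set.univ ∈ F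
  mono : ∀ X ∈ F, ∀ Y : Set ℕ, X ⊆ Y → Y ∈ F
  inter : ∀ X ∈ F, ∀ Y ∈ F, X ∩ Y ∈ F

/-- The family is independent modulo `F`. -/
def Ind (F : Set (Set ℕ)) : Prop :=
  ∀ P N : Finset W, Disjoint P N → ∀ X ∈ F, (cell A P N ∩ X).Nonempty

variable {A}

theorem exists_max (hA : ∀ P N : Finset W, Disjoint P N → (cell A P N).Nonempty) :
    ∃ F : Set (Set ℕ), Fil F ∧ Ind A F ∧
      ∀ G : Set (Set ℕ), Fil G → Ind A G → F ⊆ G → G ⊆ F := by
  have h0 : ({Set.univ} : Set (Set ℕ)) ∈ {F : Set (Set ℕ) | Fil F ∧ Ind A F} := by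
    refine ⟨⟨rfl, ?_, ?_⟩, ?_⟩
    · rintro X hX Y hXY
      have hX' : X = Set.univ := hX
      rw [hX', Set.univ_subset_iff] at hXY
      exact hXY
    · rintro X hX Y hY
      have hX' : X = Set.univ := hX
      have hY' : Y = Set.univ := hY
      rw [hX', hY', Set.inter_univ]
      exact Set.mem_singleton _
    · rintro P N hPN X hX
      have hX' : X = Set.univ := hX
      rw [hX', Set.inter_univ]
      exact hA P N hPN
  obtain ⟨F, hF⟩ := zorn_subset_nonempty {F : Set (Set ℕ) | Fil F ∧ Ind A F} (by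
    intro c hc hchain hne
    refine ⟨⋃₀ c, ⟨⟨?_, ?_, ?_⟩, ?_⟩, fun s hs => Set.subset_sUnion_of_mem hs⟩
    · obtain ⟨G, hG⟩ := hne
      exact ⟨G, hG, (hc hG).1.univ⟩
    · rintro X ⟨G, hG, hX⟩ Y hXY
      exact ⟨G, hG, (hc hG).1.mono X hX Y hXY⟩
    · rintro X ⟨G, hG, hX⟩ Y ⟨G', hG', hY⟩
      rcases hchain.total hG hG' with h | h
      · exact ⟨G', hG', (hc hG').1.inter X (h hX) Y hY⟩
      · exact ⟨G, hG, (hc hG).1.inter X hX Y (h hY)⟩
    · rintro P N hPN X ⟨G, hG, hX⟩
      exact (hc hG).2 P N hPN X hX) {Set.univ} h0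
  exact ⟨F, hF.2.1.1, hF.2.1.2, fun G h1 h2 h3 => hF.2.2 ⟨h1, h2⟩ h3⟩

variable {F : Set (Set ℕ)} (hF : Fil F) (hI : Ind A F)
  (hM : ∀ G : Set (Set ℕ), Fil G → Ind A G → F ⊆ G → G ⊆ F)

include hF hM in
theorem mem_of_ind (B : Set ℕ)
    (hB : ∀ P N : Finset W, Disjoint P N → ∀ X ∈ F, (cell A P N ∩ (B ∩ X)).Nonempty) : B ∈ F := by
  refine hM {Y | ∃ X ∈ F, B ∩ X ⊆ Y} ⟨?_, ?_, ?_⟩ ?_ ?_ ?_
  · exact ⟨Set.univ, hF.univ, Set.subset_univ _⟩
  · rintro X ⟨Z, hZ, hZX⟩ Y hXY
    exact ⟨Z, hZ, hZX.trans hXY⟩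
  · rintro X ⟨Z, hZ, hZX⟩ Y ⟨Z', hZ', hZY⟩
    exact ⟨Z ∩ Z', hF.inter Z hZ Z' hZ', fun n hn =>
      ⟨hZX ⟨hn.1, hn.2.1⟩, hZY ⟨hn.1, hn.2.2⟩⟩⟩
  · rintro P N hPN Y ⟨X, hX, hXY⟩
    obtain ⟨n, hn1, hn2⟩ := hB P N hPN X hX
    exact ⟨n, hn1, hXY hn2⟩
  · intro X hX
    exact ⟨X, hX, Set.inter_subset_right⟩
  · exact ⟨Set.univ, hF.univ, Set.inter_subset_left⟩

theorem cell_anti {P N P' N' : Finset W} (h1 : P ⊆ P') (h2 : N ⊆ N') :
    cell A P' N' ⊆ cell A P N :=
  fun _ hn => ⟨fun w hw => hn.1 w (h1 hw), fun w hw => hn.2 w (h2 hw)⟩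

/-- The condition decides `B` modulo `F`. -/
def Dec (A : W → Set ℕ) (F : Set (Set ℕ)) (P N : Finset W) (B : Set ℕ) : Prop :=
  (cell A P N \ B)ᶜ ∈ F ∨ (cell A P N ∩ B)ᶜ ∈ F

include hF hI hM in
theorem dense_dec (B : Set ℕ) (P N : Finset W) :
    Disjoint P N → ∃ P' N' : Finset W, P ⊆ P' ∧ N ⊆ N' ∧ Disjoint P' N' ∧ Dec A F P' N' B := by
  classical
  intro hPN
  by_contra hcon
  push Not at hcon
  have h1 : B ∪ (cell A P N)ᶜ ∈ F := by
    apply mem_of_ind hF hM
    intro Q M hQM X hX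
    by_cases hd : Disjoint (P ∪ Q) (N ∪ M)
    · have h2 := hcon (P ∪ Q) (N ∪ M) Finset.subset_union_left Finset.subset_union_left hd
      unfold Dec at h2
      push Not at h2
      have h3 : (cell A (P ∪ Q) (N ∪ M) ∩ B ∩ X).Nonempty := by
        by_contra hne
        apply h2.2
        apply hF.mono X hX
        intro n hn hn2
        exact hne ⟨n, hn2, hn⟩
      obtain ⟨n, ⟨hn1, hn2⟩, hn3⟩ := h3
      exact ⟨n, cell_anti Finset.subset_union_right Finset.subset_union_right hn1, Or.inl hn2, hn3⟩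
    · obtain ⟨n, hn1, hn2⟩ := hI Q M hQM X hX
      refine ⟨n, hn1, Or.inr ?_, hn2⟩
      intro hn3
      apply hd
      rw [Finset.disjoint_left]
      intro w hw1 hw2
      rw [Finset.mem_union] at hw1 hw2
      have hp : n ∈ A w := by
        rcases hw1 with h | h
        · exact hn3.1 w h
        · exact hn1.1 w h
      rcases hw2 with h | h
      · exact hn3.2 w h hp
      · exact hn1.2 w h hp
  apply hcon P N subset_rfl subset_rfl hPN
  left
  apply hF.mono _ h1
  intro n hn hn2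
  rcases hn with h | h
  · exact hn2.2 h
  · exact h hn2.1

/-- `B` is decided by conditions below `a`. -/
def Sup (A : W → Set ℕ) (F : Set (Set ℕ)) (B : Set ℕ) (a : W) : Prop :=
  ∀ P N : Finset W, Disjoint P N → ∃ P' N' : Finset W, (∀ w ∈ P', w < a) ∧ (∀ w ∈ N', w < a) ∧
    (∀ w ∈ P, w ∉ N') ∧ (∀ w ∈ P', w ∉ N) ∧ Disjoint P' N' ∧ Dec A F P' N' B

include hF hI hM in
theorem exists_sup (hc : ∀ a : W, (Set.Iio a).Countable)
    (hb : ∀ S : Set W, S.Countable → ∃ a, ∀ s ∈ S, s < a) (B : Set ℕ) : ∃ a, Sup A F B a := by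
  classical
  have hdec := dense_dec hF hI hM B
  choose! f g h1 h2 h3 h4 using hdec
  -- one step
  have step : ∀ a : W, ∃ b : W, a < b ∧ ∀ P N : Finset W, Disjoint P N → (∀ w ∈ P, w < a) →
      (∀ w ∈ N, w < a) → (∀ w ∈ f P N, w < b) ∧ (∀ w ∈ g P N, w < b) := by
    intro a
    have hcf : (Set.Iio a).Countable := hc a
    have hset : {P : Finset W | (P : Set W) ⊆ Set.Iio a}.Countable := by
      have h5 := (Set.countable_ofPred_finite_subset hcf).preimage_of_injOn
        (f := fun P : Finset W => (P : Set W)) Finset.coe_injective.injOn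
      refine h5.mono ?_
      intro P hP
      exact And.intro P.finite_toSet hP
    let S : Set W := {a} ∪ ⋃ P ∈ {P : Finset W | (P : Set W) ⊆ Set.Iio a},
      ⋃ N ∈ {P : Finset W | (P : Set W) ⊆ Set.Iio a}, ((f P N : Set W) ∪ (g P N : Set W))
    have hS : S.Countable := by
      refine (Set.countable_singleton a).union ?_
      refine hset.biUnion fun P _ => hset.biUnion fun N _ => ?_
      exact (Finset.countable_toSet _).union (Finset.countable_toSet _)
    obtain ⟨b, hbb⟩ := hb S hS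
    refine ⟨b, hbb a (Or.inl rfl), ?_⟩
    intro P N hPN hP hN
    constructor
    · intro w hw
      apply hbb
      right
      rw [Set.mem_iUnion₂]
      refine ⟨P, hP, ?_⟩
      rw [Set.mem_iUnion₂]
      exact ⟨N, hN, Or.inl hw⟩
    · intro w hw
      apply hbb
      right
      rw [Set.mem_iUnion₂]
      refine ⟨P, hP, ?_⟩
      rw [Set.mem_iUnion₂]
      exact ⟨N, hN, Or.inr hw⟩
  choose s hs1 hs2 using step
  obtain ⟨a0, -⟩ := hb ∅ Set.countable_empty
  let q : ℕ → W := fun n => s^[n] a0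
  have hq : ∀ n, q (n + 1) = s (q n) := fun n => Function.iterate_succ_apply' s n a0
  have hqm : StrictMono q := strictMono_nat_of_lt_succ fun n => by rw [hq]; exact hs1 _
  have hne : {b : W | ∀ n, q n < b}.Nonempty := by
    obtain ⟨b, hbb⟩ := hb (Set.range q) (Set.countable_range q)
    exact ⟨b, fun n => hbb _ ⟨n, rfl⟩⟩
  obtain ⟨a, ha1, ha2⟩ := WellFounded.has_min (wellFounded_lt (α := W)) _ hne
  have hlt : ∀ w, w < a → ∃ n, w < q n := by
    intro w hw
    by_contra hcon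
    push Not at hcon
    exact ha2 w (fun n => lt_of_lt_of_le (hqm (Nat.lt_succ_self n)) (hcon (n + 1))) hw
  have hfin : ∀ P : Finset W, (∀ w ∈ P, w < a) → ∃ n, ∀ w ∈ P, w < q n := by
    intro P
    induction P using Finset.induction_on with
    | empty => intro _; exact ⟨0, fun w hw => absurd hw (Finset.notMem_empty w)⟩
    | insert x P _ ih =>
      intro h
      obtain ⟨n, hn⟩ := ih fun w hw => h w (Finset.mem_insert_of_mem hw)
      obtain ⟨m, hm⟩ := hlt x (h x (Finset.mem_insert_self x P))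
      refine ⟨max n m, ?_⟩
      intro w hw
      rcases Finset.mem_insert.mp hw with rfl | hw
      · exact lt_of_lt_of_le hm (hqm.monotone (le_max_right _ _))
      · exact lt_of_lt_of_le (hn w hw) (hqm.monotone (le_max_left _ _))
  refine ⟨a, ?_⟩
  intro P N hPN
  let P1 := P.filter (· < a)
  let N1 := N.filter (· < a)
  have hd1 : Disjoint P1 N1 := by
    rw [Finset.disjoint_left] at hPN ⊢
    intro w hw1 hw2
    exact hPN (Finset.mem_of_mem_filter w hw1) (Finset.mem_of_mem_filter w hw2)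
  obtain ⟨n, hn⟩ := hfin (P1 ∪ N1) (by
    intro w hw
    rcases Finset.mem_union.mp hw with h | h
    · exact (Finset.mem_filter.mp h).2
    · exact (Finset.mem_filter.mp h).2)
  obtain ⟨hf, hg⟩ := hs2 (q n) P1 N1 hd1 (fun w hw => hn w (Finset.mem_union_left _ hw))
    (fun w hw => hn w (Finset.mem_union_right _ hw))
  rw [← hq] at hf hg
  have hf' : ∀ w ∈ f P1 N1, w < a := fun w hw => (hf w hw).trans (ha1 _)
  have hg' : ∀ w ∈ g P1 N1, w < a := fun w hw => (hg w hw).trans (ha1 _)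
  have hdd := h3 P1 N1 hd1
  rw [Finset.disjoint_left] at hdd
  refine ⟨f P1 N1, g P1 N1, hf', hg', ?_, ?_, h3 P1 N1 hd1, h4 P1 N1 hd1⟩
  · intro w hw hw2
    exact hdd (h1 P1 N1 hd1 (Finset.mem_filter.mpr ⟨hw, hg' w hw2⟩)) hw2
  · intro w hw hw2
    exact hdd hw (h2 P1 N1 hd1 (Finset.mem_filter.mpr ⟨hw2, hf' w hw⟩))

include hF in
theorem sup_inter {B C : Set ℕ} {a : W} (hB : Sup A F B a) (hC : Sup A F C a) :
    Sup A F (B ∩ C) a := by
  classical
  intro P N hPN
  obtain ⟨P1, N1, a1, a2, a3, a4, a5, a6⟩ := hB P N hPN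
  have hd : Disjoint (P ∪ P1) (N ∪ N1) := by
    rw [Finset.disjoint_left] at hPN a5 ⊢
    intro w hw1 hw2
    rcases Finset.mem_union.mp hw1 with h | h <;> rcases Finset.mem_union.mp hw2 with h' | h'
    · exact hPN h h'
    · exact a3 w h h'
    · exact a4 w h h'
    · exact a5 h h'
  obtain ⟨P2, N2, b1, b2, b3, b4, b5, b6⟩ := hC (P ∪ P1) (N ∪ N1) hd
  refine ⟨P1 ∪ P2, N1 ∪ N2, ?_, ?_, ?_, ?_, ?_, ?_⟩
  · intro w hw
    rcases Finset.mem_union.mp hw with h | h
    · exact a1 w h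
    · exact b1 w h
  · intro w hw
    rcases Finset.mem_union.mp hw with h | h
    · exact a2 w h
    · exact b2 w h
  · intro w hw hw2
    rcases Finset.mem_union.mp hw2 with h | h
    · exact a3 w hw h
    · exact b3 w (Finset.mem_union_left _ hw) h
  · intro w hw hw2
    rcases Finset.mem_union.mp hw with h | h
    · exact a4 w h hw2
    · exact b4 w h (Finset.mem_union_left _ hw2)
  · rw [Finset.disjoint_left] at a5 b5 ⊢
    intro w hw1 hw2
    rcases Finset.mem_union.mp hw1 with h | h <;> rcases Finset.mem_union.mp hw2 with h' | h'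
    · exact a5 h h'
    · exact b3 w (Finset.mem_union_right _ h) h'
    · exact b4 w h (Finset.mem_union_right _ h')
    · exact b5 h h'
  · have c1 : cell A (P1 ∪ P2) (N1 ∪ N2) ⊆ cell A P1 N1 :=
      cell_anti Finset.subset_union_left Finset.subset_union_left
    have c2 : cell A (P1 ∪ P2) (N1 ∪ N2) ⊆ cell A P2 N2 :=
      cell_anti Finset.subset_union_right Finset.subset_union_right
    rcases a6 with h | h
    · rcases b6 with h' | h'
      · left
        apply hF.mono _ (hF.inter _ h _ h')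
        rintro n ⟨hn1, hn2⟩ ⟨hn3, hn4⟩
        apply hn4
        constructor
        · by_contra hB
          exact hn1 ⟨c1 hn3, hB⟩
        · by_contra hC
          exact hn2 ⟨c2 hn3, hC⟩
      · right
        apply hF.mono _ h'
        rintro n hn1 ⟨hn2, hn3⟩
        exact hn1 ⟨c2 hn2, hn3.2⟩
    · right
      apply hF.mono _ h
      rintro n hn1 ⟨hn2, hn3⟩
      exact hn1 ⟨c1 hn2, hn3.1⟩

include hF in
theorem sup_univ (a : W) : Sup A F Set.univ a := by
  intro P N _
  refine ⟨∅, ∅, by simp, by simp, by simp, by simp, by simp, Or.inl ?_⟩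
  rw [Set.sdiff_univ, Set.compl_empty]
  exact hF.univ

include hF in
theorem sup_self {w a : W} (hw : w < a) : Sup A F (A w) a := by
  classical
  intro P N hPN
  by_cases h : w ∈ P
  · refine ⟨{w}, ∅, ?_, by simp, by simp, ?_, by simp, Or.inl ?_⟩
    · intro x hx
      rw [Finset.mem_singleton.mp hx]
      exact hw
    · intro x hx
      rw [Finset.mem_singleton.mp hx]
      exact Finset.disjoint_left.mp hPN h
    · apply hF.mono _ hF.univ
      intro n _ hn
      exact hn.2 (hn.1.1 w (Finset.mem_singleton_self w))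
  · refine ⟨∅, {w}, by simp, ?_, ?_, by simp, by simp, Or.inr ?_⟩
    · intro x hx
      rw [Finset.mem_singleton.mp hx]
      exact hw
    · intro x hx hx2
      rw [Finset.mem_singleton.mp hx2] at hx
      exact h hx
    · apply hF.mono _ hF.univ
      intro n _ hn
      exact hn.1.2 w (Finset.mem_singleton_self w) hn.2

theorem sup_mono {B : Set ℕ} {a b : W} (hab : a ≤ b) (hB : Sup A F B a) : Sup A F B b := by
  intro P N hPN
  obtain ⟨P1, N1, a1, a2, a3⟩ := hB P N hPN
  exact ⟨P1, N1, fun w hw => lt_of_lt_of_le (a1 w hw) hab,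
    fun w hw => lt_of_lt_of_le (a2 w hw) hab, a3⟩

variable {p : Ultrafilter ℕ} (hp : ∀ X ∈ F, X ∈ p)

include hF hI hM hp in
theorem exists_pos {B : Set ℕ} {a : W} (hB : Sup A F B a) (hBp : B ∈ p) :
    ∃ P N : Finset W, (∀ w ∈ P, w < a) ∧ (∀ w ∈ N, w < a) ∧ Disjoint P N ∧
      (cell A P N \ B)ᶜ ∈ F := by
  classical
  by_contra hcon
  push Not at hcon
  have h1 : Bᶜ ∈ F := by
    apply mem_of_ind hF hM
    intro P N hPN X hX
    obtain ⟨P1, N1, a1, a2, a3, a4, a5, a6⟩ := hB P N hPN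
    have h2 : (cell A P1 N1 ∩ B)ᶜ ∈ F := by
      rcases a6 with h | h
      · exact absurd h (hcon P1 N1 a1 a2 a5)
      · exact h
    have hd : Disjoint (P ∪ P1) (N ∪ N1) := by
      rw [Finset.disjoint_left] at hPN a5 ⊢
      intro w hw1 hw2
      rcases Finset.mem_union.mp hw1 with h | h <;> rcases Finset.mem_union.mp hw2 with h' | h'
      · exact hPN h h'
      · exact a3 w h h'
      · exact a4 w h h'
      · exact a5 h h'
    obtain ⟨n, hn1, hn2, hn3⟩ := hI _ _ hd _ (hF.inter _ hX _ h2)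
    refine ⟨n, cell_anti Finset.subset_union_left Finset.subset_union_left hn1, ?_, hn2⟩
    intro hnB
    exact hn3 ⟨cell_anti Finset.subset_union_right Finset.subset_union_right hn1, hnB⟩
  exact (Ultrafilter.compl_mem_iff_notMem.mp (hp _ h1)) hBp

/-- The filters of the chain. -/
def Fa (A : W → Set ℕ) (F : Set (Set ℕ)) (p : Ultrafilter ℕ) (a : W) : Set (Set ℕ) :=
  {C | ∃ B ∈ p, Sup A F B a ∧ B ⊆ C}

include hF hI hM hp in
theorem notMem_Fa (a : W) : A a ∉ Fa A F p a := by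
  classical
  rintro ⟨B, hBp, hB, hBA⟩
  obtain ⟨P, N, h1, h2, h3, h4⟩ := exists_pos hF hI hM hp hB hBp
  have hd : Disjoint P (insert a N) := by
    rw [Finset.disjoint_left] at h3 ⊢
    intro w hw1 hw2
    rcases Finset.mem_insert.mp hw2 with rfl | h
    · exact lt_irrefl _ (h1 _ hw1)
    · exact h3 hw1 h
  obtain ⟨n, hn1, hn2⟩ := hI _ _ hd _ h4
  apply hn2
  refine ⟨cell_anti subset_rfl (Finset.subset_insert a N) hn1, ?_⟩
  intro hnB
  exact hn1.2 a (Finset.mem_insert_self a N) (hBA hnB)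

include hF hI hM hp in
/-- The chain, in the abstract form. -/
theorem main_abstract (hpA : ∀ w, A w ∈ p) (hc : ∀ a : W, (Set.Iio a).Countable)
    (hb : ∀ S : Set W, S.Countable → ∃ a, ∀ s ∈ S, s < a) :
    ∃ J : W → Set (Set ℕ), (∀ a, IsIdeal (J a)) ∧ (∀ a b, a < b → J a ⊂ J b) ∧
      IsMaximalIdeal (⋃ a, J a) := by
  have hmem : ∀ a C, C ∈ Fa A F p a → C ∈ p := by
    rintro a C ⟨B, hB, -, hBC⟩
    exact Filter.mem_of_superset hB hBC
  have hUnion : (⋃ a, {Y : Set ℕ | Yᶜ ∈ Fa A F p a}) = {Y : Set ℕ | Yᶜ ∈ p} := by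
    ext Y
    rw [Set.mem_iUnion]
    constructor
    · rintro ⟨a, ha⟩
      exact hmem a _ ha
    · intro hY
      obtain ⟨a, ha⟩ := exists_sup hF hI hM hc hb Yᶜ
      exact ⟨a, Yᶜ, hY, ha, subset_rfl⟩
  refine ⟨fun a => {Y | Yᶜ ∈ Fa A F p a}, ?_, ?_, ?_⟩
  · intro a
    refine ⟨?_, ?_, ?_, ?_⟩
    · change (∅ : Set ℕ)ᶜ ∈ Fa A F p a
      rw [Set.compl_empty]
      exact ⟨Set.univ, Filter.univ_mem, sup_univ hF a, subset_rfl⟩
    · rintro X ⟨B, hB1, hB2, hB3⟩ Y ⟨C, hC1, hC2, hC3⟩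
      change (X ∪ Y)ᶜ ∈ Fa A F p a
      rw [Set.compl_union]
      exact ⟨B ∩ C, Filter.inter_mem hB1 hC1, sup_inter hF hB2 hC2,
        Set.inter_subset_inter hB3 hC3⟩
    · rintro X ⟨B, hB1, hB2, hB3⟩ Y hYX
      exact ⟨B, hB1, hB2, hB3.trans (Set.compl_subset_compl.mpr hYX)⟩
    · intro h
      have h1 := hmem a _ h
      rw [Set.compl_univ] at h1
      exact p.empty_notMem h1
  · intro a b hab
    refine ⟨?_, ?_⟩
    · rintro Y ⟨B, hB1, hB2, hB3⟩
      exact ⟨B, hB1, sup_mono hab.le hB2, hB3⟩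
    · intro hsub
      have h1 : (A a)ᶜ ∈ {Y : Set ℕ | Yᶜ ∈ Fa A F p b} := by
        change (A a)ᶜᶜ ∈ Fa A F p b
        rw [compl_compl]
        exact ⟨A a, hpA a, sup_self hF hab, subset_rfl⟩
      have h2 := hsub h1
      change (A a)ᶜᶜ ∈ Fa A F p a at h2
      rw [compl_compl] at h2
      exact notMem_Fa hF hI hM hp a h2
  · rw [hUnion]
    refine ⟨⟨?_, ?_, ?_, ?_⟩, ?_⟩
    · change (∅ : Set ℕ)ᶜ ∈ p
      rw [Set.compl_empty]
      exact Filter.univ_mem
    · intro X hX Y hY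
      change (X ∪ Y)ᶜ ∈ p
      rw [Set.compl_union]
      exact Filter.inter_mem hX hY
    · intro X hX Y hYX
      exact Filter.mem_of_superset hX (Set.compl_subset_compl.mpr hYX)
    · intro h
      change (Set.univ : Set ℕ)ᶜ ∈ p at h
      rw [Set.compl_univ] at h
      exact p.empty_notMem h
    · intro J hJ hsub
      apply Set.Subset.antisymm _ hsub
      intro Y hY
      by_contra hcon
      have h1 : Y ∈ p := by
        by_contra h2
        exact hcon (Ultrafilter.compl_mem_iff_notMem.mpr h2)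
      have h2 : Yᶜ ∈ J := by
        apply hsub
        change Yᶜᶜ ∈ p
        rw [compl_compl]
        exact h1
      have h3 := hJ.union Y hY Yᶜ h2
      rw [Set.union_compl_self] at h3
      exact hJ.proper h3

end abstract

section family

variable {W : Type*} (e : W → Set ℕ)

/-- An independent family indexed by a set of subsets of `ℕ`. -/
def fam (w : W) : Set ℕ :=
  {n | ∃ t ∈ ((Denumerable.eqv (Finset ℕ × Finset (Finset ℕ))).symm n).2,
    ∀ k : ℕ, k ∈ t ↔ k ∈ ((Denumerable.eqv (Finset ℕ × Finset (Finset ℕ))).symm n).1 ∧ k ∈ e w}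

theorem fam_ind (he : Function.Injective e) (P N : Finset W) (hPN : Disjoint P N) :
    (cell (fam e) P N).Nonempty := by
  classical
  -- a finite set separating the members
  have hsep : ∀ Q : Finset W, ∃ s : Finset ℕ, ∀ w ∈ Q, ∀ w' ∈ Q, w ≠ w' →
      ∃ k ∈ s, ¬ (k ∈ e w ↔ k ∈ e w') := by
    intro Q
    have h1 : ∀ x : W × W, ∃ k : ℕ, x.1 ≠ x.2 → ¬ (k ∈ e x.1 ↔ k ∈ e x.2) := by
      intro x
      by_cases h : x.1 = x.2
      · exact ⟨0, fun h' => absurd h h'⟩
      · have h2 : e x.1 ≠ e x.2 := fun h' => h (he h')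
        by_contra hcon
        push Not at hcon
        apply h2
        ext k
        exact (hcon k).2
    choose k hk using h1
    refine ⟨(Q ×ˢ Q).image k, ?_⟩
    intro w hw w' hw' hne
    exact ⟨k (w, w'), Finset.mem_image_of_mem k (Finset.mk_mem_product hw hw'), hk (w, w') hne⟩
  obtain ⟨s, hs⟩ := hsep (P ∪ N)
  let T : Finset (Finset ℕ) := P.image fun w => s.filter (fun k => k ∈ e w)
  refine ⟨Denumerable.eqv (Finset ℕ × Finset (Finset ℕ)) (s, T), ?_, ?_⟩
  · intro w hw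
    refine ⟨s.filter (fun k => k ∈ e w), ?_, ?_⟩
    · rw [Equiv.symm_apply_apply]
      exact Finset.mem_image_of_mem (fun w => s.filter (fun k => k ∈ e w)) hw
    · intro k
      rw [Equiv.symm_apply_apply, Finset.mem_filter]
  · rintro w hw ⟨t, ht, hk⟩
    rw [Equiv.symm_apply_apply] at ht
    obtain ⟨w', hw', rfl⟩ := Finset.mem_image.mp ht
    have hne : w' ≠ w := by
      rintro rfl
      exact Finset.disjoint_left.mp hPN hw' hw
    obtain ⟨k, hk1, hk2⟩ := hs w' (Finset.mem_union_left _ hw') w (Finset.mem_union_right _ hw) hne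
    apply hk2
    have h1 := hk k
    rw [Equiv.symm_apply_apply, Finset.mem_filter] at h1
    constructor
    · intro h; exact (h1.mp ⟨hk1, h⟩).2
    · intro h; exact (h1.mpr ⟨hk1, h⟩).2

end family

theorem main_family {W : Type*} [LinearOrder W] [WellFoundedLT W] (e : W → Set ℕ)
    (he : Function.Injective e) (hc : ∀ a : W, (Set.Iio a).Countable)
    (hb : ∀ S : Set W, S.Countable → ∃ a, ∀ s ∈ S, s < a) :
    ∃ J : W → Set (Set ℕ), (∀ a, IsIdeal (J a)) ∧ (∀ a b, a < b → J a ⊂ J b) ∧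
      IsMaximalIdeal (⋃ a, J a) := by
  classical
  obtain ⟨F, hF, hI, hM⟩ := exists_max (A := fam e) (fam_ind e he)
  -- the filter generated by `F` and the members of the family
  let G : Filter ℕ :=
    { sets := {Y | ∃ X ∈ F, ∃ P : Finset W, cell (fam e) P ∅ ∩ X ⊆ Y}
      univ_sets := ⟨Set.univ, hF.univ, ∅, Set.subset_univ _⟩
      sets_of_superset := by
        rintro X Y ⟨Z, hZ, P, hP⟩ hXY
        exact ⟨Z, hZ, P, hP.trans hXY⟩
      inter_sets := by
        rintro X Y ⟨Z, hZ, P, hP⟩ ⟨Z', hZ', P', hP'⟩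
        refine ⟨Z ∩ Z', hF.inter Z hZ Z' hZ', P ∪ P', ?_⟩
        rintro n ⟨hn1, hn2, hn3⟩
        exact ⟨hP ⟨cell_anti Finset.subset_union_left subset_rfl hn1, hn2⟩,
          hP' ⟨cell_anti Finset.subset_union_right subset_rfl hn1, hn3⟩⟩ }
  have hG : G.NeBot := by
    refine ⟨fun h => ?_⟩
    have h1 : (∅ : Set ℕ) ∈ G := by rw [h]; exact Filter.mem_bot
    obtain ⟨X, hX, P, hP⟩ := h1
    obtain ⟨n, hn⟩ := hI P ∅ (Finset.disjoint_empty_right P) X hX
    exact hP hn
  have hle : (Ultrafilter.of G : Filter ℕ) ≤ G := Ultrafilter.of_le G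
  refine main_abstract hF hI hM (p := Ultrafilter.of G) ?_ ?_ hc hb
  · intro X hX
    exact hle ⟨X, hX, ∅, Set.inter_subset_right⟩
  · intro w
    apply hle
    refine ⟨Set.univ, hF.univ, {w}, ?_⟩
    rintro n ⟨hn, -⟩
    exact hn.1 w (Finset.mem_singleton_self w)

open Ordinal Cardinal in
/-- In ZFC there is a strictly increasing sequence of length `ω₁` of ideals on `ω` whose union is
a maximal ideal. -/
theorem result : ∃ J : Ordinal.{0} → Set (Set ℕ),
    (∀ a, a < ω₁ → IsIdeal (J a)) ∧ (∀ a b, a < b → b < ω₁ → J a ⊂ J b) ∧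
      IsMaximalIdeal (⋃ a ∈ Set.Iio ω₁, J a) := by
  classical
  -- an injection of the countable ordinals into the power set
  have hinj : Nonempty (Set.Iio (ω₁ : Ordinal.{0}) ↪ Set ℕ) := by
    rw [← Cardinal.lift_mk_le', Cardinal.mk_Iio_ordinal, Ordinal.card_omega, Cardinal.mk_set,
      Cardinal.mk_nat, Cardinal.lift_id']
    exact Cardinal.lift_le.mpr Cardinal.aleph_one_le_continuum
  obtain ⟨f⟩ := hinj
  have hc : ∀ a : Set.Iio (ω₁ : Ordinal.{0}), (Set.Iio a).Countable := by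
    intro a
    have h1 : (Set.Iio (a : Ordinal.{0})).Countable := by
      rw [← Cardinal.le_aleph0_iff_set_countable, Cardinal.mk_Iio_ordinal]
      have h2 : (a : Ordinal.{0}).card < ℵ₁ := Cardinal.lt_omega_iff_card_lt.mp a.2
      rw [← Cardinal.succ_aleph0, Order.lt_succ_iff] at h2
      rw [Cardinal.lift_le_aleph0]
      exact h2
    exact (h1.preimage Subtype.val_injective).mono fun b hb => hb
  have hb : ∀ S : Set (Set.Iio (ω₁ : Ordinal.{0})), S.Countable → ∃ a, ∀ s ∈ S, s < a := by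
    intro S hS
    have : Countable S := hS
    have h1 : (⨆ s : S, Order.succ ((s : Set.Iio (ω₁ : Ordinal.{0})) : Ordinal.{0})) < ω₁ := by
      apply Ordinal.iSup_lt_omega_one
      intro s
      exact (Cardinal.isSuccLimit_omega 1).succ_lt s.1.2
    refine ⟨⟨_, h1⟩, ?_⟩
    intro s hs
    change (s : Ordinal.{0}) < _
    exact lt_of_lt_of_le (Order.lt_succ _)
      (Ordinal.le_iSup (fun s : S => Order.succ ((s : Set.Iio (ω₁ : Ordinal.{0})) : Ordinal.{0}))
        ⟨s, hs⟩)
  obtain ⟨J, h1, h2, h3⟩ := main_family f f.injective hc hb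
  refine ⟨fun a => if h : a < ω₁ then J ⟨a, h⟩ else ∅, ?_, ?_, ?_⟩
  · intro a ha
    change IsIdeal (if h : a < ω₁ then J ⟨a, h⟩ else ∅)
    rw [dif_pos ha]
    exact h1 _
  · intro a b hab hb
    change (if h : a < ω₁ then J ⟨a, h⟩ else ∅) ⊂ (if h : b < ω₁ then J ⟨b, h⟩ else ∅)
    rw [dif_pos hb, dif_pos (hab.trans hb)]
    exact h2 _ _ hab
  · convert h3 using 1
    ext Y
    simp only [Set.mem_iUnion]
    constructor
    · rintro ⟨a, ha, hY⟩
      have ha' : a < ω₁ := ha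
      rw [dif_pos ha'] at hY
      exact ⟨⟨a, ha⟩, hY⟩
    · rintro ⟨a, hY⟩
      have ha' : (a : Ordinal.{0}) < ω₁ := a.2
      refine ⟨a.1, a.2, ?_⟩
      rw [dif_pos ha']
      exact hY

end Pool.Agent.Results.MP_ea2126_lc.ChainOfIdeals
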